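import Pool.Agent.Zk29.Po.S6

set_option autoImplicit false

open Filter Topology Polynomial
open scoped OnePoint

/-!
# Slow growth and slow recurrence of the free critical points of generic rational maps with an
attracting cycle, and of generic polynomials

The free critical points of a rational map are those which lie in no basin of an attracting cycle.
No lower bound on the growth of derivatives at all times, no summability, no bound on the recurrence
and nothing on the area of the Julia set is assumed.
-/

namespace Pool.Agent.Results.MP_8f2e1c_an.GenericSlowGrowth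

/-- The quotient `u / v` as a point of the sphere. -/
noncomputable def quot (u v : ℂ) : OnePoint ℂ := if v = 0 then ∞ else ((u / v : ℂ) : OnePoint ℂ)

/-- The rational map `P / Q` of degree `d` on the sphere. -/
noncomputable def sphere (d : ℕ) (P Q : ℂ[X]) (x : OnePoint ℂ) : OnePoint ℂ :=
  x.elim (quot (P.coeff d) (Q.coeff d)) (fun z => quot (P.eval z) (Q.eval z))

/-- `P / Q` is a rational map of degree `d` in lowest terms. -/
def RatMap (d : ℕ) (P Q : ℂ[X]) : Prop := IsCoprime P Q ∧ max P.natDegree Q.natDegree = d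

/-- `P / Q` is a polynomial of degree `d`, with `Q = 1`. -/
def PolyMap (d : ℕ) (P Q : ℂ[X]) : Prop := Q = 1 ∧ P.natDegree = d

/-- Homogeneous coordinates of a point of the sphere: `(z, 1)` for `z` in the plane, `(1, 0)`
for `∞`. -/
noncomputable def coords (x : OnePoint ℂ) : ℂ × ℂ := x.elim (1, 0) (fun z => (z, 1))

/-- The chordal distance on the sphere: `|z - w| / (√(|z|² + 1) √(|w|² + 1))` in the plane. -/
noncomputable def chord (x y : OnePoint ℂ) : ℝ :=
  ‖(coords x).1 * (coords y).2 - (coords y).1 * (coords x).2‖ /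
    (√(‖(coords x).1‖ ^ 2 + ‖(coords x).2‖ ^ 2) * √(‖(coords y).1‖ ^ 2 + ‖(coords y).2‖ ^ 2))

/-- `a` is an attracting periodic point: `f^n(a) = a` and near `a` the map `f^n` contracts the
chordal distances to `a` by a factor smaller than one (for a rational map: the multiplier of the
cycle, counted for `f^n`, has modulus smaller than one). -/
def IsSink (f : OnePoint ℂ → OnePoint ℂ) (n : ℕ) (a : OnePoint ℂ) : Prop :=
  0 < n ∧ f^[n] a = a ∧ ∃ q : ℝ, q < 1 ∧ ∀ᶠ x in 𝓝 a, chord (f^[n] x) a ≤ q * chord x a

/-- The map `f` has an attracting cycle. -/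
def HasSink (f : OnePoint ℂ → OnePoint ℂ) : Prop := ∃ n a, IsSink f n a

/-- The point `x` lies in the basin of an attracting cycle of `f`. -/
def Attracted (f : OnePoint ℂ → OnePoint ℂ) (x : OnePoint ℂ) : Prop :=
  ∃ n a, IsSink f n a ∧ Tendsto (fun k : ℕ => f^[n * k] x) atTop (𝓝 a)

/-- The polynomial `P' Q - P Q'`. -/
noncomputable def critPoly (P Q : ℂ[X]) : ℂ[X] := derivative P * Q - P * derivative Q

/-- The multiplicity of `x` as a critical point of the rational map `P / Q` of degree `d` (the local
degree at `x` minus one): the order of the zero of `P' Q - P Q'` at a point of the plane, and what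
is missing to `2 d - 2` at `∞`. The critical points are the points where it is positive. -/
noncomputable def mult (d : ℕ) (P Q : ℂ[X]) (x : OnePoint ℂ) : ℕ :=
  x.elim (2 * d - 2 - (critPoly P Q).natDegree) (fun z => (critPoly P Q).rootMultiplicity z)

/-- The free critical points: the critical points which lie in no basin of an attracting cycle. -/
def free (d : ℕ) (P Q : ℂ[X]) : Set (OnePoint ℂ) :=
  {c | 1 ≤ mult d P Q c ∧ ¬ Attracted (sphere d P Q) c}

/-- For all `n ≥ 2`, with `s = exp (- K (log n) ^ 2)`:
(a) for every `c` in `S` the map `f^n` multiplies the distances of points of the disc of radius `s`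
about `f(c)` at most by `1 / s`;
(b) there is no cycle `c_0, c_1, …, c_m = c_0` (`m ≥ 1`) in `S` such that for every `i < m` some
`f^j(f(c_i))`, `0 ≤ j ≤ n`, is at distance less than `s` from `c_{i+1}`. -/
def Slow (K : ℝ) (f : OnePoint ℂ → OnePoint ℂ) (S : Set (OnePoint ℂ)) : Prop :=
  ∀ n : ℕ, 2 ≤ n →
    (∀ c ∈ S, ∀ x y : OnePoint ℂ, chord x (f c) < Real.exp (-(K * Real.log n ^ 2)) →
      chord y (f c) < Real.exp (-(K * Real.log n ^ 2)) →
      chord (f^[n] x) (f^[n] y) ≤ Real.exp (K * Real.log n ^ 2) * chord x y) ∧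
    ∀ (m : ℕ) (c : ℕ → OnePoint ℂ), 0 < m → c m = c 0 → ¬ ∀ i < m, c i ∈ S ∧
      ∃ j ≤ n, chord (f^[j] (f (c i))) (c (i + 1)) < Real.exp (-(K * Real.log n ^ 2))

/-- The coefficients of the two pairs of polynomials differ by less than `ε`. -/
def Close (ε : ℝ) (P Q P' Q' : ℂ[X]) : Prop :=
  ∀ i : ℕ, ‖P'.coeff i - P.coeff i‖ < ε ∧ ‖Q'.coeff i - Q.coeff i‖ < ε

/-- All critical points of `P / Q` are attracted by periodic sinks (the formula of the frozen
statement). -/
def Hyperbolic (P Q : ℂ[X]) : Prop :=
  ∃ f : OnePoint ℂ → OnePoint ℂ, Continuous f ∧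
    (∀ z : ℂ, Q.eval z ≠ 0 →
      f (OnePoint.some z) = OnePoint.some (P.eval z / Q.eval z)) ∧
    ∀ c : OnePoint ℂ, (¬ ∃ U ∈ nhds c, Set.InjOn f U) →
      ∃ z : OnePoint ℂ, ∃ n : ℕ, 0 < n ∧ f^[n] z = z ∧
        (∃ U ∈ nhds z, ∀ w ∈ U,
          Filter.Tendsto (fun k : ℕ => f^[n * k] w) Filter.atTop (nhds z)) ∧
        Filter.Tendsto (fun k : ℕ => f^[n * k] c) Filter.atTop (nhds z)

/-- **Slow growth and slow recurrence of the free critical points of generic rational maps with an
attracting cycle, and of generic polynomials.** Let `V` be the set of all rational maps of degree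
`d ≥ 2`, or the set of all polynomials of degree `d`. Arbitrarily close to every `f = P / Q` in `V`
there is `f₁ = P₁ / Q₁` in `V` such that

(1) for some `K` all maps in `V` near `f₁` which have an attracting cycle or are polynomials have
only simple free critical points, and these are `K`-slow;

(2) if `f` has an attracting cycle or is a polynomial, if its free critical points are simple, and
if they are `K`-slow for no `K`, then `f₁` has an attracting cycle and fewer free critical points
than `f`, and if `f₁` has no free critical point then all its critical points are attracted by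
periodic sinks in the sense of the frozen statement. -/
theorem result (d : ℕ) (hd : 2 ≤ d) (V : ℂ[X] → ℂ[X] → Prop) (hV : V = RatMap d ∨ V = PolyMap d)
    (P Q : ℂ[X]) (h : V P Q) (ε : ℝ) (hε : 0 < ε) :
    ∃ P₁ Q₁ : ℂ[X], V P₁ Q₁ ∧ Close ε P Q P₁ Q₁ ∧
      (∃ η K : ℝ, 0 < η ∧
        ∀ P' Q' : ℂ[X], V P' Q' → Close η P₁ Q₁ P' Q' → (HasSink (sphere d P' Q') ∨ Q' = 1) →
          (∀ c ∈ free d P' Q', mult d P' Q' c = 1) ∧
            Slow K (sphere d P' Q') (free d P' Q')) ∧
      ((HasSink (sphere d P Q) ∨ Q = 1) → (∀ c ∈ free d P Q, mult d P Q c = 1) →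
        (∀ K : ℝ, ¬ Slow K (sphere d P Q) (free d P Q)) →
        HasSink (sphere d P₁ Q₁) ∧ (free d P₁ Q₁).Finite ∧
          (free d P₁ Q₁).ncard < (free d P Q).ncard ∧
          (free d P₁ Q₁ = ∅ → Hyperbolic P₁ Q₁)) := by
  rcases hV with hV | hV
  · subst hV
    exact Pool.Agent.Zk29.Po.rat hd h hε
  · subst hV
    exact Pool.Agent.Zk29.Po.pol hd h hε

end Pool.Agent.Results.MP_8f2e1c_an.GenericSlowGrowth
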