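import Mathlib
import Pool.Agent.Zk23.NNS

/-! Quantitative approximation of rational maps by hyperbolic rational maps with the same number of
attracting cycles of each period. -/

set_option autoImplicit false

open Topology Filter MeasureTheory Metric

namespace Pool.Agent.Results.MP_8f2e1c_an.NoNewSinks

/-- `f` is the rational map `P / Q` on the Riemann sphere. -/
def IsRationalMap (P Q : Polynomial ℂ) (f : OnePoint ℂ → OnePoint ℂ) : Prop :=
  Continuous f ∧ ∀ z : ℂ, Q.eval z ≠ 0 →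
    f (OnePoint.some z) = OnePoint.some (P.eval z / Q.eval z)

/-- `a` is a point of an attracting cycle of `f` whose period divides `n`: `f^n` fixes `a` and the
iterates of `f^n` converge to `a` uniformly on a neighbourhood of `a`. -/
def IsSink (f : OnePoint ℂ → OnePoint ℂ) (n : ℕ) (a : OnePoint ℂ) : Prop :=
  0 < n ∧ f^[n] a = a ∧
    ∃ U ∈ nhds a, ∀ V ∈ nhds a, ∀ᶠ k : ℕ in Filter.atTop, ∀ w ∈ U, f^[n * k] w ∈ V

/-- `z` is in the basin of an attracting cycle of `f`. -/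
def Attracted (f : OnePoint ℂ → OnePoint ℂ) (z : OnePoint ℂ) : Prop :=
  ∃ (n : ℕ) (a : OnePoint ℂ), IsSink f n a ∧
    Filter.Tendsto (fun k : ℕ => f^[n * k] z) Filter.atTop (nhds a)

/-- Spherical area. -/
noncomputable def sphericalArea (E : Set ℂ) : ENNReal :=
  ∫⁻ z in E, ENNReal.ofReal (1 / (1 + ‖z‖ ^ 2) ^ 2)

/-- `f` is hyperbolic: word for word the condition of the frozen statement S05373 on `f`. -/
def Hyperbolic (f : OnePoint ℂ → OnePoint ℂ) : Prop :=
  ∀ c : OnePoint ℂ, (¬ ∃ U ∈ nhds c, Set.InjOn f U) →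
    ∃ z : OnePoint ℂ, ∃ n : ℕ, 0 < n ∧ f^[n] z = z ∧
      (∃ U ∈ nhds z, ∀ w ∈ U,
        Filter.Tendsto (fun k : ℕ => f^[n * k] w) Filter.atTop (nhds z)) ∧
      Filter.Tendsto (fun k : ℕ => f^[n * k] c) Filter.atTop (nhds z)

open Pool.Agent.H790R3.RB in
/-- Let `d ≥ 2`, let `0 < γ < 1 / 2` and let `P₀ / Q₀` be a rational map of degree `d`. There are
`C` and `δ > 0` such that for every rational map `f = P / Q` of degree `d` with coefficients at
distance less than `δ` from those of `P₀ / Q₀` and every `a < δ` which is at least the spherical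
area of the set of points not attracted to attracting cycles of `f`, there is a hyperbolic rational
map `g` of degree `d` with coefficients at distance at most `C a ^ γ` from those of `f` which has,
for every `m`, as many attracting periodic points of period dividing `m` as `f`. -/
theorem result (d : ℕ) (hd : 2 ≤ d) (γ : ℝ) (hγ : 0 < γ) (hγ2 : γ < 1 / 2) (P₀ Q₀ : Polynomial ℂ)
    (hPQ : IsCoprime P₀ Q₀) (hdeg : max P₀.natDegree Q₀.natDegree = d) :
    ∃ C δ : ℝ, 0 < C ∧ 0 < δ ∧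
      ∀ (P Q : Polynomial ℂ) (f : OnePoint ℂ → OnePoint ℂ), IsCoprime P Q →
        max P.natDegree Q.natDegree = d →
        (∀ i : ℕ, ‖P.coeff i - P₀.coeff i‖ < δ ∧ ‖Q.coeff i - Q₀.coeff i‖ < δ) →
        IsRationalMap P Q f →
        ∀ a : ℝ, 0 < a → a < δ →
          sphericalArea {z : ℂ | ¬ Attracted f (OnePoint.some z)} ≤ ENNReal.ofReal a →
          ∃ (P' Q' : Polynomial ℂ) (g : OnePoint ℂ → OnePoint ℂ), IsCoprime P' Q' ∧
            max P'.natDegree Q'.natDegree = d ∧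
            (∀ i : ℕ, ‖P'.coeff i - P.coeff i‖ ≤ C * a ^ γ ∧
              ‖Q'.coeff i - Q.coeff i‖ ≤ C * a ^ γ) ∧
            IsRationalMap P' Q' g ∧ Hyperbolic g ∧
            ∀ m : ℕ, {z : OnePoint ℂ | IsSink g m z}.encard =
              {z : OnePoint ℂ | IsSink f m z}.encard := by
  have hd1 : 1 ≤ d := by omega
  obtain ⟨h1, h2⟩ := PQ SP d hd1
  obtain ⟨x₀, hnd0, hx0, hx1, -⟩ := h2 P₀ Q₀ hPQ hdeg
  obtain ⟨-, -, hco0, -, -⟩ := h1 x₀ hnd0
  obtain ⟨C, δ, hC, hδ, H⟩ := Pool.Agent.Zk23.nns γ d x₀ hγ hγ2 hd hnd0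
  refine ⟨C, δ, hC, hδ, fun P Q f hc hm hclose hf a ha0 haδ ha => ?_⟩
  obtain ⟨y, hyn, hyP, hyQ, hfe⟩ := h2 P Q hc hm
  have hfy : f = sp y := hfe f hf.1 hf.2
  obtain ⟨-, -, hcoy, hhiy, -⟩ := h1 y hyn
  have hy : ‖y - x₀‖ < δ := by
    rw [pi_norm_lt_iff hδ]
    rintro ⟨i, j⟩
    have e1 := hcoy i j
    have e2 := hco0 i j
    rw [Pi.sub_apply, ← e1, ← e2]
    fin_cases i
    · show ‖(pol y 0).coeff (j : ℕ) - (pol x₀ 0).coeff (j : ℕ)‖ < δ
      rw [hyP, hx0]; exact (hclose j).1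
    · show ‖(pol y 1).coeff (j : ℕ) - (pol x₀ 1).coeff (j : ℕ)‖ < δ
      rw [hyQ, hx1]; exact (hclose j).2
  obtain ⟨x, hx, hxnd, hhyp, hcard⟩ := H y hy a ha0 haδ (by
    rw [← hfy]
    exact ha)
  obtain ⟨hcop, hmax, hco, hhi, hev⟩ := h1 x hxnd
  have hcoef : ∀ i : Fin 2, ∀ j : ℕ, ‖(pol x i).coeff j - (pol y i).coeff j‖ ≤ C * a ^ γ := by
    intro i j
    have hpos : 0 ≤ C * a ^ γ := mul_nonneg hC.le (Real.rpow_nonneg ha0.le _)
    by_cases hj : d < j
    · rw [hhi i j hj, hhiy i j hj, sub_zero, norm_zero]; exact hpos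
    · have e1 := hco i ⟨j, by omega⟩
      have e2 := hcoy i ⟨j, by omega⟩
      simp only at e1 e2
      rw [e1, e2]
      exact (norm_le_pi_norm (x - y) (i, ⟨j, by omega⟩)).trans hx
  refine ⟨pol x 0, pol x 1, sp x, hcop, hmax, fun i => ⟨?_, ?_⟩, ⟨(SP d x hd1 hxnd).1, hev⟩, hhyp,
    fun m => ?_⟩
  · rw [← hyP]; exact hcoef 0 i
  · rw [← hyQ]; exact hcoef 1 i
  · rw [hfy]; exact hcard m

end Pool.Agent.Results.MP_8f2e1c_an.NoNewSinks
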