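import Mathlib
import Pool.Agent.Zk23.MXF

/-! Rational maps of zero area type without superattracting cycles: the free critical points can be
distributed arbitrarily and simultaneously over the attracting cycles of the map and over new
attracting cycles of large periods, by hyperbolic maps arbitrarily close to the map. -/

set_option autoImplicit false

open Topology Filter MeasureTheory Metric

namespace Pool.Agent.Results.MP_8f2e1c_an.OldAndNewCycles

/-- `f` is the rational map `P / Q` on the Riemann sphere. -/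
def IsRationalMap (P Q : Polynomial ℂ) (f : OnePoint ℂ → OnePoint ℂ) : Prop :=
  Continuous f ∧ ∀ z : ℂ, Q.eval z ≠ 0 →
    f (OnePoint.some z) = OnePoint.some (P.eval z / Q.eval z)

/-- `a` is a point of an attracting cycle of `f` whose period divides `n`: `f^n` fixes `a` and the
iterates of `f^n` converge to `a` uniformly on a neighbourhood of `a`. -/
def IsSink (f : OnePoint ℂ → OnePoint ℂ) (n : ℕ) (a : OnePoint ℂ) : Prop :=
  0 < n ∧ f^[n] a = a ∧
    ∃ U ∈ nhds a, ∀ V ∈ nhds a, ∀ᶠ k : ℕ in Filter.atTop, ∀ w ∈ U, f^[n * k] w ∈ V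

/-- `z` is in the basin of an attracting cycle of `f`. -/
def Attracted (f : OnePoint ℂ → OnePoint ℂ) (z : OnePoint ℂ) : Prop :=
  ∃ (n : ℕ) (a : OnePoint ℂ), IsSink f n a ∧
    Filter.Tendsto (fun k : ℕ => f^[n * k] z) Filter.atTop (nhds a)

/-- `f` is hyperbolic: word for word the condition of the frozen statement S05373 on `f`. -/
def Hyperbolic (f : OnePoint ℂ → OnePoint ℂ) : Prop :=
  ∀ c : OnePoint ℂ, (¬ ∃ U ∈ nhds c, Set.InjOn f U) →
    ∃ z : OnePoint ℂ, ∃ n : ℕ, 0 < n ∧ f^[n] z = z ∧
      (∃ U ∈ nhds z, ∀ w ∈ U,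
        Filter.Tendsto (fun k : ℕ => f^[n * k] w) Filter.atTop (nhds z)) ∧
      Filter.Tendsto (fun k : ℕ => f^[n * k] c) Filter.atTop (nhds z)

/-- `z` is in the basin of the cycle of the point `a`, which is fixed by `f^n`: the iterates of `f^n`
at some point of the orbit of `z` converge to `a`. -/
def InBasin (f : OnePoint ℂ → OnePoint ℂ) (n : ℕ) (a z : OnePoint ℂ) : Prop :=
  ∃ j : ℕ, Filter.Tendsto (fun k : ℕ => f^[n * k] (f^[j] z)) Filter.atTop (nhds a)

/-- `z` is in the immediate basin of the point `a`, which is fixed by `f^n`: both points are in a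
connected open set which is mapped into itself by `f^n` and on which the iterates of `f^n` converge
to `a`. -/
def InImmediateBasin (f : OnePoint ℂ → OnePoint ℂ) (n : ℕ) (a z : OnePoint ℂ) : Prop :=
  ∃ U : Set (OnePoint ℂ), IsOpen U ∧ IsConnected U ∧ a ∈ U ∧ z ∈ U ∧ Set.MapsTo f^[n] U U ∧
    ∀ w ∈ U, Filter.Tendsto (fun k : ℕ => f^[n * k] w) Filter.atTop (nhds a)

/-- The linear polynomial `X - z` for a point `z` of the plane, and `1` for infinity. -/
noncomputable def factor (z : OnePoint ℂ) : Polynomial ℂ :=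
  match z with
  | none => 1
  | some z => Polynomial.X - Polynomial.C z

/-- `c` is the list of the `2 d - 2` critical points of the rational map `P / Q` of degree `d`,
counted with multiplicity: the finite ones are the zeros of `P' Q - P Q'`, and infinity has the
remaining multiplicity. -/
def CriticalList (d : ℕ) (P Q : Polynomial ℂ) (c : Fin (2 * d - 2) → OnePoint ℂ) : Prop :=
  ∃ a : ℂ, a ≠ 0 ∧ Polynomial.derivative P * Q - P * Polynomial.derivative Q =
    Polynomial.C a * ∏ i, factor (c i)

open Pool.Agent.H790R3.RB in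
/-- Let `f = P / Q` be a rational map of degree `d ≥ 2` without superattracting cycles such that the
set of points of the plane which are not attracted to attracting cycles has zero area, and let
`c 0, ..., c (2 d - 3)` be its critical points counted with multiplicity. Let `New` be any set of
free (not attracted) critical points, and choose for each other critical point `c i` an attracting
periodic point `a i` of `f`, arbitrarily if `c i` is free, and with `c i` in the basin of the cycle of
`a i` if `c i` is attracted. Arbitrarily close to `f` there is a hyperbolic rational map `g` of degree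
`d` with simple critical points `c' i` close to `c i` such that
* there is an injection `σ`, close to the identity, of the attracting periodic points of `f` into
  those of `g`, which conjugates `f` to `g` and preserves the periods;
* for `i ∉ New` the critical point `c' i` is in the basin of the cycle of `σ (a i)`;
* for `i ∈ New` the critical point `c' i` is in the immediate basin of a point `b i` of an attracting
  cycle of `g` of exact period `p i > N`, which does not come from a cycle of `f`, and the `p i` are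
  different from each other;
* each attracting periodic point of `g` is a point `σ w` or belongs to the cycle of some `b i`,
  `i ∈ New`. -/
theorem result (d : ℕ) (hd : 2 ≤ d) (P Q : Polynomial ℂ) (hPQ : IsCoprime P Q)
    (hdeg : max P.natDegree Q.natDegree = d) (f : OnePoint ℂ → OnePoint ℂ)
    (hf : IsRationalMap P Q f)
    (harea : volume {z : ℂ | ¬ Attracted f (OnePoint.some z)} = 0)
    (c : Fin (2 * d - 2) → OnePoint ℂ) (hc : CriticalList d P Q c)
    (hsuper : ∀ i n, ¬ IsSink f n (c i))
    (New : Set (Fin (2 * d - 2))) (hNew : ∀ i ∈ New, ¬ Attracted f (c i))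
    (n : Fin (2 * d - 2) → ℕ) (a : Fin (2 * d - 2) → OnePoint ℂ)
    (ha : ∀ i, i ∉ New → IsSink f (n i) (a i))
    (hold : ∀ i, Attracted f (c i) → InBasin f (n i) (a i) (c i)) (N : ℕ)
    (ε : ℝ) (hε : 0 < ε) (U : Fin (2 * d - 2) → Set (OnePoint ℂ)) (hU : ∀ i, U i ∈ nhds (c i))
    (V : OnePoint ℂ → Set (OnePoint ℂ)) (hV : ∀ z, V z ∈ nhds z) :
    ∃ (P' Q' : Polynomial ℂ) (g : OnePoint ℂ → OnePoint ℂ) (c' : Fin (2 * d - 2) → OnePoint ℂ)
      (σ : OnePoint ℂ → OnePoint ℂ) (p : Fin (2 * d - 2) → ℕ) (b : Fin (2 * d - 2) → OnePoint ℂ),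
      IsCoprime P' Q' ∧ max P'.natDegree Q'.natDegree = d ∧
      (∀ i : ℕ, ‖P'.coeff i - P.coeff i‖ < ε ∧ ‖Q'.coeff i - Q.coeff i‖ < ε) ∧
      IsRationalMap P' Q' g ∧ Hyperbolic g ∧
      CriticalList d P' Q' c' ∧ Function.Injective c' ∧ (∀ i, c' i ∈ U i) ∧
      Set.InjOn σ {z | ∃ m, IsSink f m z} ∧
      (∀ m z, IsSink f m z → (∀ m', IsSink g m' (σ z) ↔ IsSink f m' z) ∧
        σ z ∈ V z ∧ σ (f z) = g (σ z)) ∧
      (∀ i, i ∉ New → InBasin g (n i) (σ (a i)) (c' i)) ∧
      (∀ i ∈ New, N < p i ∧ (∀ m, IsSink g m (b i) ↔ 0 < m ∧ p i ∣ m) ∧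
        InImmediateBasin g (p i) (b i) (c' i) ∧ ∀ m z, IsSink f m z → σ z ≠ b i) ∧
      (∀ i ∈ New, ∀ j ∈ New, p i = p j → i = j) ∧
      ∀ m z, IsSink g m z → (∃ w, IsSink f m w ∧ z = σ w) ∨ ∃ i ∈ New, ∃ j, z = g^[j] (b i) := by
  have hd1 : 1 ≤ d := by omega
  obtain ⟨h1, h2⟩ := PQ SP d hd1
  obtain ⟨x₀, hnd, hx0, hx1, hfe⟩ := h2 P Q hPQ hdeg
  have hfx : f = sp x₀ := hfe f hf.1 hf.2
  subst hfx
  have hcx : Pool.Agent.Zk23.HCrit x₀ c := by
    rw [Pool.Agent.Zk23.hcrit_iff hd, hx0, hx1]
    exact hc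
  obtain ⟨x, c', σ, p, b, hx, hxnd, hhyp, hcr, hinj, hcU, hσi, hσ, hold', hnew, hpi, hall⟩ :=
    Pool.Agent.Zk23.everyX hd hnd harea hcx hsuper hNew ha hold N hε hU hV
  obtain ⟨hcop, hmax, hco, hhi, hev⟩ := h1 x hxnd
  obtain ⟨-, -, hco0, hhi0, -⟩ := h1 x₀ hnd
  have hcoef : ∀ i : Fin 2, ∀ j : ℕ, ‖(pol x i).coeff j - (pol x₀ i).coeff j‖ < ε := by
    intro i j
    by_cases hj : d < j
    · rw [hhi i j hj, hhi0 i j hj, sub_zero, norm_zero]; exact hε
    · have e1 := hco i ⟨j, by omega⟩
      have e2 := hco0 i ⟨j, by omega⟩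
      simp only at e1 e2
      rw [e1, e2]
      exact (norm_le_pi_norm (x - x₀) (i, ⟨j, by omega⟩)).trans_lt hx
  refine ⟨pol x 0, pol x 1, sp x, c', σ, p, b, hcop, hmax, fun i => ⟨?_, ?_⟩,
    ⟨(SP d x hd1 hxnd).1, hev⟩, hhyp, (Pool.Agent.Zk23.hcrit_iff hd x c').1 hcr, hinj, hcU, hσi,
    hσ, hold', hnew, hpi, hall⟩
  · rw [← hx0]; exact hcoef 0 i
  · rw [← hx1]; exact hcoef 1 i

end Pool.Agent.Results.MP_8f2e1c_an.OldAndNewCycles
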