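import Mathlib
import Pool.Agent.Zk23.BC

/-! Hyperbolic rational maps near a rational map of zero area type, with exactly one new attracting
cycle, which has a high period and attracts a given critical point. -/

set_option autoImplicit false

open Topology Filter MeasureTheory Metric

namespace Pool.Agent.Results.MP_8f2e1c_an.OneNewCycle

/-- `f` is the rational map `P / Q` on the Riemann sphere. -/
def IsRationalMap (P Q : Polynomial ℂ) (f : OnePoint ℂ → OnePoint ℂ) : Prop :=
  Continuous f ∧ ∀ z : ℂ, Q.eval z ≠ 0 →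
    f (OnePoint.some z) = OnePoint.some (P.eval z / Q.eval z)

/-- `a` is a point of an attracting cycle of `f` whose period divides `n`: `f^n` fixes `a` and the
iterates of `f^n` converge to `a` uniformly on a neighbourhood of `a`. -/
def IsSink (f : OnePoint ℂ → OnePoint ℂ) (n : ℕ) (a : OnePoint ℂ) : Prop :=
  0 < n ∧ f^[n] a = a ∧
    ∃ U ∈ nhds a, ∀ V ∈ nhds a, ∀ᶠ k : ℕ in Filter.atTop, ∀ w ∈ U, f^[n * k] w ∈ V

/-- `z` is in the basin of an attracting cycle of `f`. -/
def Attracted (f : OnePoint ℂ → OnePoint ℂ) (z : OnePoint ℂ) : Prop :=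
  ∃ (n : ℕ) (a : OnePoint ℂ), IsSink f n a ∧
    Filter.Tendsto (fun k : ℕ => f^[n * k] z) Filter.atTop (nhds a)

/-- `f` is hyperbolic: word for word the condition of the frozen statement S05373 on `f`. -/
def Hyperbolic (f : OnePoint ℂ → OnePoint ℂ) : Prop :=
  ∀ c : OnePoint ℂ, (¬ ∃ U ∈ nhds c, Set.InjOn f U) →
    ∃ z : OnePoint ℂ, ∃ n : ℕ, 0 < n ∧ f^[n] z = z ∧
      (∃ U ∈ nhds z, ∀ w ∈ U,
        Filter.Tendsto (fun k : ℕ => f^[n * k] w) Filter.atTop (nhds z)) ∧
      Filter.Tendsto (fun k : ℕ => f^[n * k] c) Filter.atTop (nhds z)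

/-- `c` is a critical point of `f`: `f` is not injective on any neighbourhood of `c`. -/
def Critical (f : OnePoint ℂ → OnePoint ℂ) (c : OnePoint ℂ) : Prop :=
  ¬ ∃ U ∈ nhds c, Set.InjOn f U

/-- `z` is in the basin of the cycle of the point `a`, which is fixed by `f^n`: the iterates of `f^n`
at some point of the orbit of `z` converge to `a`. -/
def InBasin (f : OnePoint ℂ → OnePoint ℂ) (n : ℕ) (a z : OnePoint ℂ) : Prop :=
  ∃ j : ℕ, Filter.Tendsto (fun k : ℕ => f^[n * k] (f^[j] z)) Filter.atTop (nhds a)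

open Pool.Agent.H790R3.RB in
/-- Let `f = P / Q` be a rational map of degree `d ≥ 2` such that the set of points of the plane
which are not attracted to attracting cycles has zero area, and let `c` be a critical point of `f`
which is not attracted and which is not the image of a critical point. For every `N`, arbitrarily
close to `f` there is a hyperbolic rational map `g` of degree `d` which has exactly one attracting
cycle more than `f`: for some `p > N` an attracting cycle of exact period `p`, which attracts a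
critical point `c'` of `g` arbitrarily close to `c`. -/
theorem result (d : ℕ) (hd : 2 ≤ d) (P Q : Polynomial ℂ) (hPQ : IsCoprime P Q)
    (hdeg : max P.natDegree Q.natDegree = d) (f : OnePoint ℂ → OnePoint ℂ)
    (hf : IsRationalMap P Q f)
    (harea : volume {z : ℂ | ¬ Attracted f (OnePoint.some z)} = 0)
    (c : OnePoint ℂ) (hc : Critical f c) (hna : ¬ Attracted f c)
    (hcv : ∀ p : OnePoint ℂ, Critical f p → f p ≠ c)
    (N : ℕ) (ε : ℝ) (hε : 0 < ε) (U : Set (OnePoint ℂ)) (hU : U ∈ nhds c) :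
    ∃ (P' Q' : Polynomial ℂ) (g : OnePoint ℂ → OnePoint ℂ) (c' a' : OnePoint ℂ) (p : ℕ),
      IsCoprime P' Q' ∧ max P'.natDegree Q'.natDegree = d ∧
      (∀ i : ℕ, ‖P'.coeff i - P.coeff i‖ < ε ∧ ‖Q'.coeff i - Q.coeff i‖ < ε) ∧
      IsRationalMap P' Q' g ∧ Hyperbolic g ∧ N < p ∧
      (∀ m : ℕ, 0 < m → {z : OnePoint ℂ | IsSink g m z}.encard =
        {z : OnePoint ℂ | IsSink f m z}.encard + if p ∣ m then (p : ℕ∞) else 0) ∧
      IsSink g p a' ∧ (∀ m : ℕ, g^[m] a' = a' → p ∣ m) ∧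
      c' ∈ U ∧ Critical g c' ∧ InBasin g p a' c' := by
  have hd1 : 1 ≤ d := by omega
  obtain ⟨h1, h2⟩ := PQ SP d hd1
  obtain ⟨x₀, hnd, hx0, hx1, hfe⟩ := h2 P Q hPQ hdeg
  have hfx : f = sp x₀ := hfe f hf.1 hf.2
  subst hfx
  obtain ⟨x, c', a', p, hpN, hx, hxnd, hhyp, hcard, hcU, hcc, haS, hper, hcap⟩ :=
    Pool.Agent.Zk23.newsink hd hnd harea hc hna hcv N hε hU
  obtain ⟨hcop, hmax, hco, hhi, hev⟩ := h1 x hxnd
  obtain ⟨-, -, hco0, hhi0, -⟩ := h1 x₀ hnd
  have hcoef : ∀ i : Fin 2, ∀ j : ℕ, ‖(pol x i).coeff j - (pol x₀ i).coeff j‖ < ε := by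
    intro i j
    by_cases hj : d < j
    · rw [hhi i j hj, hhi0 i j hj, sub_zero, norm_zero]; exact hε
    · have e1 := hco i ⟨j, by omega⟩
      have e2 := hco0 i ⟨j, by omega⟩
      simp only at e1 e2
      rw [e1, e2]
      exact (norm_le_pi_norm (x - x₀) (i, ⟨j, by omega⟩)).trans_lt hx
  refine ⟨pol x 0, pol x 1, sp x, c', a', p, hcop, hmax, fun i => ⟨?_, ?_⟩,
    ⟨(SP d x hd1 hxnd).1, hev⟩, hhyp, hpN, fun m hm => ?_, haS, hper, hcU, hcc, hcap⟩
  · rw [← hx0]; exact hcoef 0 i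
  · rw [← hx1]; exact hcoef 1 i
  · have h3 := hcard m
    have h4 : ((if m ≠ 0 ∧ p ∣ m then p else 0 : ℕ) : ℕ∞) = if p ∣ m then (p : ℕ∞) else 0 := by
      by_cases hp : p ∣ m
      · rw [if_pos ⟨hm.ne', hp⟩, if_pos hp]
      · rw [if_neg (fun h => hp h.2), if_neg hp]
        rfl
    rw [h4] at h3
    exact h3

end Pool.Agent.Results.MP_8f2e1c_an.OneNewCycle
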